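import Mathlib

/-!
Harmonic sums over intervals `(a, b]`, and their `p`-adic behaviour.
-/

namespace Pool.Agent.P30.UnitInterval

open Finset

/-- the sum of `1/n` over `a < n ≤ b` -/
def hs (a b : ℕ) : ℚ := ∑ n ∈ Finset.Ioc a b, (1 : ℚ) / (n : ℚ)

lemma hs_add {a b c : ℕ} (h1 : a ≤ b) (h2 : b ≤ c) : hs a b + hs b c = hs a c := by
  unfold hs
  exact Finset.sum_Ioc_consecutive _ h1 h2

lemma hs_le {a b : ℕ} (h : a ≤ b) : hs a b ≤ ((b : ℚ) - a) / (a + 1) := by
  unfold hs
  have h1 : ∀ n ∈ Finset.Ioc a b, (1 : ℚ) / (n : ℚ) ≤ 1 / ((a : ℚ) + 1) := by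
    intro n hn
    rw [Finset.mem_Ioc] at hn
    have : ((a : ℚ) + 1) ≤ n := by exact_mod_cast hn.1
    apply one_div_le_one_div_of_le _ this
    positivity
  calc ∑ n ∈ Finset.Ioc a b, (1 : ℚ) / (n : ℚ) ≤ ∑ n ∈ Finset.Ioc a b, 1 / ((a : ℚ) + 1) :=
        Finset.sum_le_sum h1
    _ = ((b : ℚ) - a) / (a + 1) := by
        rw [Finset.sum_const, Nat.card_Ioc, nsmul_eq_mul, Nat.cast_sub h]; ring

lemma hs_ge {a b : ℕ} (h : a ≤ b) : ((b : ℚ) - a) / b ≤ hs a b := by
  unfold hs
  have h1 : ∀ n ∈ Finset.Ioc a b, (1 : ℚ) / (b : ℚ) ≤ 1 / (n : ℚ) := by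
    intro n hn
    rw [Finset.mem_Ioc] at hn
    have h2 : (n : ℚ) ≤ b := by exact_mod_cast hn.2
    have h3 : (0 : ℚ) < n := by
      have : 0 < n := by omega
      exact_mod_cast this
    exact one_div_le_one_div_of_le h3 h2
  calc ((b : ℚ) - a) / b = ∑ n ∈ Finset.Ioc a b, 1 / (b : ℚ) := by
        rw [Finset.sum_const, Nat.card_Ioc, nsmul_eq_mul, Nat.cast_sub h]; ring
    _ ≤ _ := Finset.sum_le_sum h1

lemma hs_nonneg (a b : ℕ) : 0 ≤ hs a b := by
  unfold hs
  exact Finset.sum_nonneg (fun n _ => by positivity)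

lemma hs_pos {a b : ℕ} (h : a < b) : 0 < hs a b := by
  unfold hs
  apply Finset.sum_pos
  · intro n hn
    rw [Finset.mem_Ioc] at hn
    have : 0 < n := by omega
    positivity
  · exact ⟨b, by rw [Finset.mem_Ioc]; omega⟩

/-- comparison with the logarithm -/
lemma hs_le_log {a b : ℕ} (ha : 1 ≤ a) (h : a ≤ b) : ((hs a b : ℚ) : ℝ) ≤ Real.log ((b : ℝ) / a) := by
  induction b, h using Nat.le_induction with
  | base =>
    have : (a : ℝ) ≠ 0 := by positivity
    simp [hs, div_self this]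
  | succ b hab ih =>
    have hb0 : (0 : ℝ) < b := by
      have : 0 < b := by omega
      exact_mod_cast this
    have ha0 : (0 : ℝ) < a := by exact_mod_cast ha
    have h1 : hs a (b + 1) = hs a b + 1 / ((b : ℚ) + 1) := by
      rw [← hs_add hab (Nat.le_succ b)]
      congr 1
      unfold hs
      rw [Nat.succ_eq_add_one, Finset.sum_Ioc_succ_top (le_refl b)]
      simp
    rw [h1]
    push_cast
    have h2 : (1 : ℝ) / ((b : ℝ) + 1) ≤ Real.log (((b : ℝ) + 1) / b) := by
      have h3 := Real.one_sub_inv_le_log_of_pos (x := ((b : ℝ) + 1) / b) (by positivity)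
      have h4 : 1 - (((b : ℝ) + 1) / b)⁻¹ = 1 / ((b : ℝ) + 1) := by
        field_simp
        ring
      linarith
    have h5 : Real.log (((b : ℝ) + 1) / a) = Real.log ((b : ℝ) / a) + Real.log (((b : ℝ) + 1) / b) := by
      rw [← Real.log_mul (by positivity) (by positivity)]
      congr 1
      field_simp
    rw [h5]
    linarith

section padic

variable {p : ℕ} [hp : Fact p.Prime]

lemma norm_one_div {n : ℕ} (hn : n ≠ 0) :
    padicNorm p ((1 : ℚ) / (n : ℚ)) = (p : ℚ) ^ (padicValNat p n) := by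
  rw [padicNorm.div, padicNorm.one, padicNorm.eq_zpow_of_nonzero (by exact_mod_cast hn),
    padicValRat.of_nat, zpow_neg, zpow_natCast]
  simp

/-- one term of dominant norm -/
lemma norm_hs_of_unique {a b n0 : ℕ} (h0 : n0 ∈ Finset.Ioc a b)
    (hu : ∀ n ∈ Finset.Ioc a b, n ≠ n0 → padicValNat p n < padicValNat p n0) :
    padicNorm p (hs a b) = (p : ℚ) ^ (padicValNat p n0) := by
  have hp1 : (1 : ℚ) < p := by exact_mod_cast hp.out.one_lt
  have hn0 : n0 ≠ 0 := by
    rw [Finset.mem_Ioc] at h0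
    omega
  have h1 : hs a b = (1 : ℚ) / n0 + ∑ n ∈ (Finset.Ioc a b).erase n0, (1 : ℚ) / n := by
    unfold hs
    rw [← Finset.add_sum_erase _ _ h0]
  have h2 : padicNorm p (∑ n ∈ (Finset.Ioc a b).erase n0, (1 : ℚ) / (n : ℚ))
      < (p : ℚ) ^ (padicValNat p n0) := by
    apply padicNorm.sum_lt'
    · intro n hn
      rw [Finset.mem_erase] at hn
      have hn' := hn.2
      rw [Finset.mem_Ioc] at hn'
      rw [norm_one_div (by omega)]
      exact pow_lt_pow_right₀ hp1 (hu n hn.2 hn.1)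
    · positivity
  rw [h1, padicNorm.add_eq_max_of_ne]
  · rw [norm_one_div hn0]
    exact max_eq_left h2.le
  · rw [norm_one_div hn0]
    exact h2.ne'

/-- if a sum of unit fractions is not `p`-integral then one of the terms has at least that norm -/
lemma exists_of_norm_hs {a b v : ℕ} (h : (p : ℚ) ^ v ≤ padicNorm p (hs a b)) :
    ∃ n ∈ Finset.Ioc a b, v ≤ padicValNat p n := by
  by_contra hcon
  push Not at hcon
  have hp1 : (1 : ℚ) < p := by exact_mod_cast hp.out.one_lt
  have : padicNorm p (hs a b) < (p : ℚ) ^ v := by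
    unfold hs
    apply padicNorm.sum_lt'
    · intro n hn
      have hn' := hn
      rw [Finset.mem_Ioc] at hn'
      rw [norm_one_div (by omega)]
      exact pow_lt_pow_right₀ hp1 (hcon n hn)
    · positivity
  exact absurd h (not_le.mpr this)

end padic

end Pool.Agent.P30.UnitInterval
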