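import Pool.Agent.P30.UnitIntervalA

/-!
Lower bounds for the denominator `m` of a solution `hs a b + 1/m = s`.
-/

namespace Pool.Agent.P30.UnitInterval

open Finset

/-- `hs a b + 1/m = s` with `s` a positive integer and `m` a positive integer -/
structure Sol (a b m s : ℕ) : Prop where
  hab : a < b
  hm : 1 ≤ m
  hs1 : 1 ≤ s
  eq : hs a b + (1 : ℚ) / (m : ℚ) = (s : ℚ)

/-- existence of a unique element of maximal 2-adic valuation -/
lemma exists_max_two {a b : ℕ} (h : a < b) : ∃ n0 ∈ Finset.Ioc a b,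
    (∀ n ∈ Finset.Ioc a b, n ≠ n0 → padicValNat 2 n < padicValNat 2 n0) ∧
    b - a < 2 * 2 ^ padicValNat 2 n0 := by
  have hne : (Finset.Ioc a b).Nonempty := ⟨b, by rw [Finset.mem_Ioc]; omega⟩
  obtain ⟨n0, hn0, hmax⟩ := Finset.exists_max_image (Finset.Ioc a b) (fun n => padicValNat 2 n) hne
  have hn0' := hn0
  rw [Finset.mem_Ioc] at hn0'
  set w := padicValNat 2 n0 with hw
  have hdvd0 : 2 ^ w ∣ n0 := by rw [hw]; exact pow_padicValNat_dvd
  have key : ∀ x ∈ Finset.Ioc a b, ¬ (2 ^ (w + 1) ∣ x) := by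
    intro x hx hd
    have hx' := hx
    rw [Finset.mem_Ioc] at hx'
    have hxne : x ≠ 0 := by omega
    have h1 := (padicValNat_dvd_iff_le (p := 2) hxne).mp hd
    have h2 := hmax x hx
    omega
  refine ⟨n0, hn0, ?_, ?_⟩
  · intro n hn hne'
    have hn' := hn
    rw [Finset.mem_Ioc] at hn'
    rcases lt_or_eq_of_le (hmax n hn) with h1 | h1
    · exact h1
    · exfalso
      have hdvd : 2 ^ w ∣ n := by
        rw [← h1]; exact pow_padicValNat_dvd
      obtain ⟨c, hc⟩ := hdvd
      obtain ⟨d, hd⟩ := hdvd0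
      have hpos : 0 < 2 ^ w := by positivity
      have hcodd : ¬ 2 ∣ c := by
        intro ⟨e, he⟩
        apply key n hn
        exact ⟨e, by rw [hc, he, pow_succ]; ring⟩
      have hdodd : ¬ 2 ∣ d := by
        intro ⟨e, he⟩
        apply key n0 hn0
        exact ⟨e, by rw [hd, he, pow_succ]; ring⟩
      have hcd : c ≠ d := by
        intro h2
        apply hne'
        rw [hc, hd, h2]
      -- an even number between c and d
      rcases lt_or_gt_of_ne hcd with h2 | h2
      · have hmem : 2 ^ w * (c + 1) ∈ Finset.Ioc a b := by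
          rw [Finset.mem_Ioc]
          constructor
          · calc a < n := hn'.1
              _ = 2 ^ w * c := hc
              _ ≤ 2 ^ w * (c + 1) := Nat.mul_le_mul_left _ (by omega)
          · calc 2 ^ w * (c + 1) ≤ 2 ^ w * d := Nat.mul_le_mul_left _ (by omega)
              _ = n0 := hd.symm
              _ ≤ b := hn0'.2
        apply key _ hmem
        have h3 : 2 ∣ c + 1 := by omega
        obtain ⟨e, he⟩ := h3
        exact ⟨e, by rw [he, pow_succ]; ring⟩
      · have hmem : 2 ^ w * (d + 1) ∈ Finset.Ioc a b := by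
          rw [Finset.mem_Ioc]
          constructor
          · calc a < n0 := hn0'.1
              _ = 2 ^ w * d := hd
              _ ≤ 2 ^ w * (d + 1) := Nat.mul_le_mul_left _ (by omega)
          · calc 2 ^ w * (d + 1) ≤ 2 ^ w * c := Nat.mul_le_mul_left _ (by omega)
              _ = n := hc.symm
              _ ≤ b := hn'.2
        apply key _ hmem
        have h3 : 2 ∣ d + 1 := by omega
        obtain ⟨e, he⟩ := h3
        exact ⟨e, by rw [he, pow_succ]; ring⟩
  · by_contra hcon
    push Not at hcon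
    -- then (a,b] contains a multiple of 2^(w+1)
    have hlen : 2 ^ (w + 1) ≤ b - a := by rw [pow_succ, hw]; omega
    have hpos : 0 < 2 ^ (w + 1) := by positivity
    have hmem : 2 ^ (w + 1) * (b / 2 ^ (w + 1)) ∈ Finset.Ioc a b := by
      rw [Finset.mem_Ioc]
      constructor
      · have h1 := Nat.div_add_mod b (2 ^ (w + 1))
        have h2 := Nat.mod_lt b hpos
        omega
      · exact Nat.mul_div_le b _
    exact key _ hmem (Dvd.intro _ rfl)

lemma two_mul_m_gt {a b m s : ℕ} (h : Sol a b m s) : b - a < 2 * m := by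
  obtain ⟨n0, hn0, hu, hlen⟩ := exists_max_two h.hab
  have : Fact (Nat.Prime 2) := ⟨Nat.prime_two⟩
  have hnorm := norm_hs_of_unique (p := 2) hn0 hu
  set w := padicValNat 2 n0 with hw
  have hm := h.hm
  rcases Nat.eq_zero_or_pos w with h0 | h0
  · rw [h0] at hlen
    omega
  · have h1 : (1 : ℚ) / m = (s : ℚ) - hs a b := by
      have := h.eq
      linarith
    have h2 : (1 : ℚ) < (2 : ℚ) ^ w := one_lt_pow₀ (by norm_num) (by omega)
    have h3 : padicNorm 2 ((s : ℚ) - hs a b) = (2 : ℚ) ^ w := by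
      rw [sub_eq_add_neg, padicNorm.add_eq_max_of_ne]
      · rw [padicNorm.neg, hnorm]
        push_cast
        apply max_eq_right
        exact le_trans (padicNorm.of_nat (p := 2) s) h2.le
      · rw [padicNorm.neg, hnorm]
        push_cast
        intro hcon
        have := padicNorm.of_nat (p := 2) s
        rw [hcon] at this
        linarith
    rw [← h1, norm_one_div (p := 2) (by omega)] at h3
    push_cast at h3
    have h4 : padicValNat 2 m = w := by
      exact pow_right_injective₀ (by norm_num) (by norm_num) h3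
    have h5 : 2 ^ w ∣ m := by rw [← h4]; exact pow_padicValNat_dvd
    have h6 : 2 ^ w ≤ m := Nat.le_of_dvd (by omega) h5
    omega

lemma half_le {a b m s : ℕ} (h : Sol a b m s) : (1 : ℚ) / 2 ≤ hs a b := by
  have hm := h.hm
  have heq := h.eq
  have hs1 : (1 : ℚ) ≤ s := by exact_mod_cast h.hs1
  rcases Nat.lt_or_ge 1 m with h1 | h1
  · have h2 : (1 : ℚ) / m ≤ 1 / 2 := by
      apply one_div_le_one_div_of_le (by norm_num)
      exact_mod_cast h1
    linarith
  · have h2 : m = 1 := by omega
    subst h2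
    have h3 : hs a b = (s : ℚ) - 1 := by
      have : (1 : ℚ) / ((1 : ℕ) : ℚ) = 1 := by norm_num
      linarith
    have h4 := hs_pos h.hab
    rw [h3] at h4
    have h5 : 1 < s := by
      have : (1 : ℚ) < s := by linarith
      exact_mod_cast this
    have h6 : (2 : ℚ) ≤ s := by exact_mod_cast h5
    rw [h3]
    linarith

lemma six_m {a b m s : ℕ} (h : Sol a b m s) : b + 1 < 6 * m := by
  have h1 := half_le h
  have h2 := hs_le h.hab.le
  have h3 : (1 : ℚ) / 2 ≤ ((b : ℚ) - a) / (a + 1) := le_trans h1 h2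
  rw [div_le_div_iff₀ (by norm_num) (by positivity)] at h3
  have h4 : (a : ℚ) + 1 ≤ 2 * (b - a) := by linarith
  have hab := h.hab
  have h5 : a + 1 ≤ 2 * (b - a) := by
    have : ((a + 1 : ℕ) : ℚ) ≤ ((2 * (b - a) : ℕ) : ℚ) := by
      push_cast [Nat.cast_sub hab.le]
      linarith
    exact_mod_cast this
  have h6 := two_mul_m_gt h
  omega

/-- the sum is at least `1 - 6/(b+1)` -/
lemma one_sub_le {a b m s : ℕ} (h : Sol a b m s) : 1 - (6 : ℚ) / (b + 1) ≤ hs a b := by
  have h1 := six_m h
  have heq := h.eq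
  have hs1 : (1 : ℚ) ≤ s := by exact_mod_cast h.hs1
  have hm : (0 : ℚ) < m := by
    have := h.hm
    exact_mod_cast this
  have h2 : (1 : ℚ) / m ≤ 6 / (b + 1) := by
    rw [div_le_div_iff₀ hm (by positivity)]
    have : ((b + 1 : ℕ) : ℚ) < ((6 * m : ℕ) : ℚ) := by exact_mod_cast h1
    push_cast at this
    linarith
  linarith

lemma thirteen {a b m s : ℕ} (h : Sol a b m s) (hb : 149 ≤ b) : 13 * a ≤ 5 * b := by
  rcases Nat.eq_zero_or_pos a with h0 | h0
  · omega
  have h1 := one_sub_le h
  have h2 := hs_le_log h0 h.hab.le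
  have h3 : ((1 - (6 : ℚ) / (b + 1) : ℚ) : ℝ) ≤ ((hs a b : ℚ) : ℝ) := by exact_mod_cast h1
  push_cast at h3
  have hbR : (149 : ℝ) ≤ b := by exact_mod_cast hb
  have h4 : (6 : ℝ) / ((b : ℝ) + 1) ≤ 0.04 := by
    rw [div_le_iff₀ (by linarith)]
    linarith
  have h5 : (0.96 : ℝ) ≤ Real.log ((b : ℝ) / a) := by linarith
  have ha0 : (0 : ℝ) < a := by exact_mod_cast h0
  have hb0 : (0 : ℝ) < b := by linarith
  have h6 : Real.exp 0.96 ≤ (b : ℝ) / a := by
    rwa [← Real.le_log_iff_exp_le (by positivity)]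
  have h7 : (2.6 : ℝ) ≤ Real.exp 0.96 := by
    have h8 : Real.exp 0.96 = Real.exp 1 * Real.exp (-0.04) := by
      rw [← Real.exp_add]; norm_num
    have h9 : (1 : ℝ) - 0.04 ≤ Real.exp (-0.04) := by
      have := Real.add_one_le_exp (-0.04 : ℝ)
      linarith
    have h10 := Real.exp_one_gt_d9
    rw [h8]
    nlinarith
  have h11 : (2.6 : ℝ) ≤ (b : ℝ) / a := le_trans h7 h6
  rw [le_div_iff₀ ha0] at h11
  have h12 : ((13 * a : ℕ) : ℝ) ≤ ((5 * b : ℕ) : ℝ) := by
    push_cast
    linarith
  exact_mod_cast h12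

/-- every prime in `(b/3, b]` divides `m` -/
lemma prime_dvd {a b m s : ℕ} (h : Sol a b m s) (hb : 149 ≤ b) {l : ℕ} (hl : l.Prime)
    (h1 : l ≤ b) (h2 : b < 3 * l) : l ∣ m := by
  have : Fact l.Prime := ⟨hl⟩
  have h13 := thirteen h hb
  have hl3 : 3 < l := by omega
  by_contra hndvd
  have hm := h.hm
  have hab := h.hab
  -- norm of 1/m is 1
  have hnm : padicNorm l ((1 : ℚ) / m) = 1 := by
    rw [padicNorm.div, padicNorm.one, (padicNorm.nat_eq_one_iff (p := l) m).mpr hndvd]
    norm_num
  have hnS : padicNorm l (hs a b) ≤ 1 := by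
    have h3 : hs a b = (s : ℚ) - 1 / m := by
      have := h.eq
      linarith
    rw [h3]
    refine le_trans padicNorm.sub ?_
    rw [hnm]
    exact max_le (padicNorm.of_nat (p := l) s) le_rfl
  -- multiples of l in (a,b]
  have hmult : ∀ n ∈ Finset.Ioc a b, l ∣ n → n = l ∨ n = 2 * l := by
    intro n hn hd
    rw [Finset.mem_Ioc] at hn
    obtain ⟨c, hc⟩ := hd
    have hc3 : c < 3 := by
      by_contra hcon
      push Not at hcon
      have : l * 3 ≤ l * c := Nat.mul_le_mul_left _ hcon
      omega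
    have hc0 : c ≠ 0 := by
      intro h0
      rw [h0] at hc
      omega
    have : c = 1 ∨ c = 2 := by omega
    rcases this with h4 | h4
    · left; rw [hc, h4]; ring
    · right; rw [hc, h4]; ring
  have hval : ∀ n, n ≠ 0 → ¬ l ∣ n → padicNorm l ((1 : ℚ) / n) = 1 := by
    intro n hn hnd
    rw [padicNorm.div, padicNorm.one, (padicNorm.nat_eq_one_iff (p := l) n).mpr hnd]
    norm_num
  have hl0 : (0 : ℚ) < l := by
    have : 0 < l := by omega
    exact_mod_cast this
  have hl1 : (1 : ℚ) < l := by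
    have : 1 < l := by omega
    exact_mod_cast this
  have hnl : padicNorm l (l : ℚ) = (l : ℚ)⁻¹ := padicNorm.padicNorm_p_of_prime
  have hn2 : padicNorm l ((2 : ℕ) : ℚ) = 1 := by
    rw [padicNorm.nat_eq_one_iff]
    intro hd
    have := Nat.le_of_dvd (by norm_num) hd
    omega
  have hn3 : padicNorm l ((3 : ℕ) : ℚ) = 1 := by
    rw [padicNorm.nat_eq_one_iff]
    intro hd
    have := Nat.le_of_dvd (by norm_num) hd
    omega
  -- the set of multiples
  set M := (Finset.Ioc a b).filter (fun n => l ∣ n) with hM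
  have hsplit : hs a b = ∑ n ∈ M, (1 : ℚ) / n +
      ∑ n ∈ (Finset.Ioc a b).filter (fun n => ¬ l ∣ n), (1 : ℚ) / n := by
    unfold hs
    rw [hM, Finset.sum_filter_add_sum_filter_not]
  have hrest : padicNorm l (∑ n ∈ (Finset.Ioc a b).filter (fun n => ¬ l ∣ n), (1 : ℚ) / n) ≤ 1 := by
    apply padicNorm.sum_le'
    · intro n hn
      rw [Finset.mem_filter, Finset.mem_Ioc] at hn
      rw [hval n (by omega) hn.2]
    · norm_num
  have hMle : padicNorm l (∑ n ∈ M, (1 : ℚ) / n) ≤ 1 := by
    have h3 : ∑ n ∈ M, (1 : ℚ) / (n : ℚ) = hs a b -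
      ∑ n ∈ (Finset.Ioc a b).filter (fun n => ¬ l ∣ n), (1 : ℚ) / n := by
      rw [hsplit]; ring
    rw [h3]
    exact le_trans padicNorm.sub (max_le hnS hrest)
  have hMval : padicNorm l (∑ n ∈ M, (1 : ℚ) / n) = l := by
    rcases Nat.lt_or_ge a l with hal | hal
    · rcases Nat.lt_or_ge b (2 * l) with hbl | hbl
      · have : M = {l} := by
          rw [hM]; ext n
          rw [Finset.mem_filter, Finset.mem_singleton]
          constructor
          · rintro ⟨h5, h6⟩
            rcases hmult n h5 h6 with h7 | h7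
            · exact h7
            · rw [Finset.mem_Ioc] at h5; omega
          · rintro rfl
            exact ⟨by rw [Finset.mem_Ioc]; omega, dvd_rfl⟩
        rw [this, Finset.sum_singleton, padicNorm.div, padicNorm.one, hnl]
        simp
      · have : M = {l, 2 * l} := by
          rw [hM]; ext n
          rw [Finset.mem_filter, Finset.mem_insert, Finset.mem_singleton]
          constructor
          · rintro ⟨h5, h6⟩
            exact hmult n h5 h6
          · rintro (rfl | rfl)
            · exact ⟨by rw [Finset.mem_Ioc]; omega, dvd_rfl⟩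
            · exact ⟨by rw [Finset.mem_Ioc]; omega, Dvd.intro_left 2 rfl⟩
        rw [this, Finset.sum_pair (by omega)]
        have h8 : (1 : ℚ) / (l : ℚ) + 1 / ((2 * l : ℕ) : ℚ) = ((3 : ℕ) : ℚ) / (((2 : ℕ) : ℚ) * l) := by
          push_cast
          field_simp
          ring
        rw [h8, padicNorm.div, padicNorm.mul, hn2, hn3, hnl]
        simp
    · have : M = {2 * l} := by
        rw [hM]; ext n
        rw [Finset.mem_filter, Finset.mem_singleton]
        constructor
        · rintro ⟨h5, h6⟩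
          rcases hmult n h5 h6 with h7 | h7
          · rw [Finset.mem_Ioc] at h5; omega
          · exact h7
        · rintro rfl
          exact ⟨by rw [Finset.mem_Ioc]; omega, Dvd.intro_left 2 rfl⟩
      rw [this, Finset.sum_singleton, padicNorm.div, padicNorm.one]
      have h8 : ((2 * l : ℕ) : ℚ) = ((2 : ℕ) : ℚ) * l := by push_cast; ring
      rw [h8, padicNorm.mul, hn2, hnl]
      simp
  rw [hMval] at hMle
  linarith

end Pool.Agent.P30.UnitInterval
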