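import Pool.Agent.P30.UnitIntervalB

/-!
Exponential lower bound for `m`, and elementary analytic inequalities.
-/

namespace Pool.Agent.P30.UnitInterval

open Finset

/-- elementary: `log b ≤ 4 y` with `y = b^(1/4)` -/
lemma log_le_four {b : ℝ} (hb : 1 ≤ b) : Real.log b ≤ 4 * √(√b) := by
  have h0 : 0 < b := by linarith
  have h1 : Real.log b = 4 * Real.log (√(√b)) := by
    rw [Real.log_sqrt (Real.sqrt_nonneg _), Real.log_sqrt h0.le]
    ring
  have h2 : Real.log (√(√b)) ≤ √(√b) - 1 := by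
    apply Real.log_le_sub_one_of_pos
    positivity
  rw [h1]
  linarith

lemma sqrt_sqrt_pow {b : ℝ} (hb : 0 ≤ b) : √(√b) ^ 4 = b := by
  have h1 : √(√b) ^ 2 = √b := Real.sq_sqrt (Real.sqrt_nonneg _)
  calc √(√b) ^ 4 = (√(√b) ^ 2) ^ 2 := by ring
    _ = (√b) ^ 2 := by rw [h1]
    _ = b := Real.sq_sqrt hb

lemma cheb_ineq {b : ℝ} (hb : 300 ^ 4 ≤ b) :
    b / 5 ≤ b * Real.log 2 - Real.log (b + 1) - 2 * √b * Real.log b - Real.log 4 * (b / 3) := by
  have hb1 : 1 ≤ b := by linarith [show (1 : ℝ) ≤ 300 ^ 4 by norm_num]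
  set y := √(√b) with hy
  have hy4 : y ^ 4 = b := sqrt_sqrt_pow (by linarith)
  have hy2 : y ^ 2 = √b := Real.sq_sqrt (Real.sqrt_nonneg _)
  have hy0 : 0 ≤ y := Real.sqrt_nonneg _
  have hy300 : 300 ≤ y := by
    by_contra hcon
    push Not at hcon
    have : y ^ 4 < 300 ^ 4 := by
      apply pow_lt_pow_left₀ hcon hy0 (by norm_num)
    rw [hy4] at this
    linarith
  have hl := log_le_four hb1
  rw [← hy] at hl
  have hl2 : Real.log (b + 1) ≤ 1 + 4 * y := by
    have h1 : Real.log (b + 1) ≤ Real.log (2 * b) := by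
      apply Real.log_le_log (by linarith) (by linarith)
    rw [Real.log_mul (by norm_num) (by linarith)] at h1
    have h2 := Real.log_two_lt_d9
    linarith
  have h4 : Real.log 4 = 2 * Real.log 2 := by
    rw [show (4 : ℝ) = 2 ^ 2 by norm_num, Real.log_pow]
    norm_num
  have hlog2 := Real.log_two_gt_d9
  rw [h4, ← hy2]
  have h5 : 2 * y ^ 2 * Real.log b ≤ 2 * y ^ 2 * (4 * y) := by
    apply mul_le_mul_of_nonneg_left hl
    positivity
  have h6 : b * (0.03 : ℝ) ≤ b * (Real.log 2 / 3 - 1 / 5) := by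
    apply mul_le_mul_of_nonneg_left _ (by linarith)
    linarith
  have h7 : 8 * y ^ 3 + (1 + 4 * y) ≤ 0.03 * y ^ 4 := by
    have h8 : y ^ 4 = y * y ^ 3 := by ring
    have h9 : 300 * y ^ 3 ≤ y * y ^ 3 := by
      apply mul_le_mul_of_nonneg_right hy300
      positivity
    have h10 : y ^ 3 ≥ 300 * 300 * y := by
      have : y ^ 3 = y * y * y := by ring
      rw [this]
      apply mul_le_mul_of_nonneg_right _ hy0
      nlinarith
    nlinarith
  have h11 : y ^ 4 = b := hy4
  nlinarith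

/-- exponential lower bound for `m` -/
lemma log_m_ge {a b m s : ℕ} (h : Sol a b m s) (hb : 300 ^ 4 ≤ b) : (b : ℝ) / 5 ≤ Real.log m := by
  set P := (Nat.primesLE b).filter (fun p => b < 3 * p) with hP
  have hb149 : 149 ≤ b := by omega
  have hdvd : ∏ p ∈ P, p ∣ m := by
    apply Finset.prod_primes_dvd
    · intro p hp
      rw [hP, Finset.mem_filter, Nat.mem_primesLE] at hp
      exact hp.1.2.prime
    · intro p hp
      rw [hP, Finset.mem_filter, Nat.mem_primesLE] at hp
      exact prime_dvd h hb149 hp.1.2 hp.1.1 hp.2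
  have hmpos : 0 < m := h.hm
  have hle : ∏ p ∈ P, p ≤ m := Nat.le_of_dvd hmpos hdvd
  have hprodpos : 0 < ∏ p ∈ P, p := Finset.prod_pos (fun p hp => by
      rw [hP, Finset.mem_filter, Nat.mem_primesLE] at hp
      exact hp.1.2.pos)
  have h1 : Real.log ((∏ p ∈ P, p : ℕ) : ℝ) ≤ Real.log m := by
    apply Real.log_le_log
    · exact_mod_cast hprodpos
    · exact_mod_cast hle
  have h2 : Real.log ((∏ p ∈ P, p : ℕ) : ℝ) = ∑ p ∈ P, Real.log p := by
    push_cast
    rw [Real.log_prod]
    intro p hp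
    rw [hP, Finset.mem_filter, Nat.mem_primesLE] at hp
    exact_mod_cast hp.1.2.pos.ne'
  have h3 : Chebyshev.theta (b : ℝ) = Chebyshev.theta ((b / 3 : ℕ) : ℝ) + ∑ p ∈ P, Real.log p := by
    rw [Chebyshev.theta_eq_sum_primesLE_log, Chebyshev.theta_eq_sum_primesLE_log]
    have h4 : Nat.primesLE (b / 3) = (Nat.primesLE b).filter (fun p => ¬ (b < 3 * p)) := by
      ext p
      rw [Finset.mem_filter, Nat.mem_primesLE, Nat.mem_primesLE]
      constructor
      · rintro ⟨h5, h6⟩
        exact ⟨⟨by omega, h6⟩, by omega⟩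
      · rintro ⟨⟨h5, h6⟩, h7⟩
        exact ⟨by omega, h6⟩
    rw [h4, add_comm, hP, Finset.sum_filter_add_sum_filter_not]
  have h4 := Chebyshev.theta_ge b
  have h5 : Chebyshev.theta ((b / 3 : ℕ) : ℝ) ≤ Real.log 4 * ((b : ℝ) / 3) := by
    refine le_trans (Chebyshev.theta_le_log4_mul_x (by positivity)) ?_
    apply mul_le_mul_of_nonneg_left
    · exact Nat.cast_div_le
    · exact Real.log_nonneg (by norm_num)
  have h6 : (300 : ℝ) ^ 4 ≤ (b : ℝ) := by exact_mod_cast hb
  have h7 := cheb_ineq h6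
  linarith

/-- the prime counting bound in the form used below -/
lemma pi_mul_log {k : ℕ} (hk : 2 ≤ k) :
    (Nat.primeCounting k : ℝ) * Real.log k ≤ 2.8 * k + √k * Real.log k := by
  have h1 : (1 : ℝ) < (k : ℝ) := by exact_mod_cast (by omega : 1 < k)
  have h2 := Chebyshev.pi_le_log4_mul_div h1
  rw [Nat.floor_natCast] at h2
  have h3 : 0 < Real.log k := Real.log_pos h1
  have h4 : Real.log √(k : ℝ) = Real.log k / 2 := Real.log_sqrt (by linarith)
  rw [h4] at h2
  have h5 : (Nat.primeCounting k : ℝ) * Real.log k ≤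
      (Real.log 4 * k / (Real.log k / 2) + √k) * Real.log k :=
    mul_le_mul_of_nonneg_right h2 h3.le
  have h6 : (Real.log 4 * k / (Real.log k / 2) + √k) * Real.log k =
      2 * Real.log 4 * k + √k * Real.log k := by
    field_simp
  have h7 : Real.log 4 ≤ 1.4 := by
    rw [show (4 : ℝ) = 2 ^ 2 by norm_num, Real.log_pow]
    have := Real.log_two_lt_d9
    push_cast
    linarith
  have h8 : 2 * Real.log 4 * k ≤ 2.8 * k := by
    apply mul_le_mul_of_nonneg_right _ (by linarith)
    linarith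
  linarith

lemma sqrt_mul_log_le {x : ℝ} (hx : 1 ≤ x) : √x * Real.log x ≤ x := by
  -- log x = 2 log √x ≤ 2 √x / e < √x
  have h0 : 0 < √x := by positivity
  have h1 : Real.log x = 2 * Real.log √x := by
    rw [Real.log_sqrt (by linarith)]; ring
  have h2 : Real.log (√x / Real.exp 1) ≤ √x / Real.exp 1 - 1 :=
    Real.log_le_sub_one_of_pos (by positivity)
  rw [Real.log_div h0.ne' (Real.exp_pos 1).ne', Real.log_exp] at h2
  have h3 : Real.log √x ≤ √x / Real.exp 1 := by linarith
  have h4 : √x / Real.exp 1 ≤ √x / 2 := by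
    apply div_le_div_of_nonneg_left h0.le (by norm_num)
    have := Real.exp_one_gt_d9
    linarith
  have h5 : Real.log x ≤ √x := by rw [h1]; linarith
  calc √x * Real.log x ≤ √x * √x := mul_le_mul_of_nonneg_left h5 h0.le
    _ = x := Real.mul_self_sqrt (by linarith)

end Pool.Agent.P30.UnitInterval
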