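import Pool.Agent.P30.UnitIntervalC

/-!
Common denominators of harmonic sums over short intervals, via binomial coefficients.
-/

namespace Pool.Agent.P30.UnitInterval

open Finset

/-- smooth part bound: `∏_{p ≤ k} p^{log_p w}` -/
def smo (k w : ℕ) : ℕ := ∏ p ∈ Nat.primesLE k, p ^ (Nat.log p w)

lemma smo_pos (k w : ℕ) : 0 < smo k w := by
  unfold smo
  apply Finset.prod_pos
  intro p hp
  have := (Nat.prime_of_mem_primesLE hp).pos
  positivity

lemma smo_le {k w : ℕ} (hw : 0 < w) : smo k w ≤ w ^ (Nat.primeCounting k) := by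
  unfold smo
  rw [← Nat.primesLE_card_eq_primeCounting, ← Finset.prod_const]
  apply Finset.prod_le_prod'
  intro p _
  exact Nat.pow_log_le_self p hw.ne'

lemma smo_factorization {k w p : ℕ} (hp : p.Prime) (hpk : p ≤ k) :
    Nat.log p w ≤ (smo k w).factorization p := by
  have h1 : p ^ (Nat.log p w) ∣ smo k w := by
    unfold smo
    apply Finset.dvd_prod_of_mem (fun p => p ^ (Nat.log p w))
    exact Nat.mem_primesLE.mpr ⟨hpk, hp⟩
  exact (hp.pow_dvd_iff_le_factorization (smo_pos k w).ne').mp h1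

lemma prod_Ioc_mul_factorial {u w : ℕ} (h : u ≤ w) :
    (∏ n ∈ Finset.Ioc u w, n) * u.factorial = w.factorial := by
  induction w, h using Nat.le_induction with
  | base => simp
  | succ w huw ih =>
    rw [Finset.prod_Ioc_succ_top huw, Nat.factorial_succ, ← ih]
    ring

lemma prod_Ioc_eq {u w : ℕ} (h : u ≤ w) :
    ∏ n ∈ Finset.Ioc u w, n = w.choose (w - u) * (w - u).factorial := by
  have h1 := prod_Ioc_mul_factorial h
  have h2 := Nat.choose_mul_factorial_mul_factorial (Nat.sub_le w u)
  have h3 : w - (w - u) = u := by omega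
  rw [h3] at h2
  rw [← h2] at h1
  exact Nat.eq_of_mul_eq_mul_right (Nat.factorial_pos u) h1

lemma prod_Ioc_pos {u w : ℕ} : 0 < ∏ n ∈ Finset.Ioc u w, n := by
  apply Finset.prod_pos
  intro n hn
  rw [Finset.mem_Ioc] at hn
  omega

/-- for a prime `p > w - u`, the valuations of the product and of the binomial coefficient agree -/
lemma factorization_choose_eq {u w p : ℕ} (h : u ≤ w) (hp : p.Prime) (hpk : w - u < p) :
    (w.choose (w - u)).factorization p = (∏ n ∈ Finset.Ioc u w, n).factorization p := by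
  rw [prod_Ioc_eq h, Nat.factorization_mul (Nat.choose_pos (Nat.sub_le w u)).ne'
    (Nat.factorial_pos _).ne']
  simp only [Finsupp.coe_add, Pi.add_apply]
  have : ((w - u).factorial).factorization p = 0 := by
    apply Nat.factorization_eq_zero_of_not_dvd
    intro hd
    have := (hp.dvd_factorial).mp hd
    omega
  omega

/-- a common denominator for the interval `(u, w]` -/
def den (u w : ℕ) : ℕ := smo (w - u) w * w.choose (w - u)

lemma den_pos {u w : ℕ} : 0 < den u w :=
  Nat.mul_pos (smo_pos _ _) (Nat.choose_pos (Nat.sub_le w u))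

lemma dvd_den {u w n : ℕ} (h : u ≤ w) (hn : n ∈ Finset.Ioc u w) : n ∣ den u w := by
  have hn' := hn
  rw [Finset.mem_Ioc] at hn'
  have hn0 : n ≠ 0 := by omega
  have hw0 : w ≠ 0 := by omega
  rw [← Nat.factorization_prime_le_iff_dvd hn0 den_pos.ne']
  intro p hp
  unfold den
  rw [Nat.factorization_mul (smo_pos _ _).ne' (Nat.choose_pos (Nat.sub_le w u)).ne']
  simp only [Finsupp.coe_add, Pi.add_apply]
  rcases Nat.lt_or_ge (w - u) p with hpk | hpk
  · have h1 := factorization_choose_eq h hp hpk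
    have h2 : n.factorization p ≤ (∏ n ∈ Finset.Ioc u w, n).factorization p := by
      have h3 : n ∣ ∏ n ∈ Finset.Ioc u w, n := Finset.dvd_prod_of_mem (fun n => n) hn
      exact (Nat.factorization_prime_le_iff_dvd hn0 prod_Ioc_pos.ne').mpr h3 p hp
    omega
  · have h1 := smo_factorization (w := w) hp hpk
    have h2 : n.factorization p ≤ Nat.log p w := by
      apply Nat.le_log_of_pow_le hp.one_lt
      exact le_trans (Nat.le_of_dvd (by omega) (Nat.ordProj_dvd n p)) hn'.2
    omega

lemma den_mul_hs {u w : ℕ} (h : u ≤ w) : ∃ z : ℤ, (den u w : ℚ) * hs u w = z := by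
  unfold hs
  rw [Finset.mul_sum]
  have h1 : ∀ n ∈ Finset.Ioc u w, (den u w : ℚ) * (1 / (n : ℚ)) = ((den u w / n : ℕ) : ℚ) := by
    intro n hn
    have hn' := hn
    rw [Finset.mem_Ioc] at hn'
    rw [Nat.cast_div (dvd_den h hn) (by exact_mod_cast (by omega : n ≠ 0))]
    ring
  rw [Finset.sum_congr rfl h1]
  exact ⟨∑ n ∈ Finset.Ioc u w, ((den u w / n : ℕ) : ℤ), by push_cast; rfl⟩

lemma den_le {u w : ℕ} (hw : 0 < w) :
    den u w ≤ w ^ (Nat.primeCounting (w - u)) * w.choose (w - u) := by
  unfold den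
  exact Nat.mul_le_mul_right _ (smo_le hw)

end Pool.Agent.P30.UnitInterval
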