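import Pool.Agent.P30.UnitIntervalD

/-!
Two disjoint intervals `(a, c]` and `(u, w]`, the second short and far to the right, cannot
have the same harmonic sum.
-/

namespace Pool.Agent.P30.UnitInterval

open Finset

lemma pi_add_le {k l : ℕ} (hk : 4 ≤ k) (hl : 5 * l < 2 * k) :
    Nat.primeCounting k + l ≤ k - 1 := by
  rcases Nat.lt_or_ge k 15 with h | h
  · have h1 : ∀ k ∈ Finset.Ico 4 15, 10 * Nat.primeCounting k + 2 * (2 * k - 1) < 10 * k := by
      decide
    have h2 := h1 k (by rw [Finset.mem_Ico]; omega)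
    omega
  · have h1 := Nat.primeCounting'_add_le (a := 6) (k := 7) (by norm_num) (by norm_num) (k - 6)
    have h2 : Nat.primeCounting k = Nat.primeCounting' (7 + (k - 6)) := by
      rw [Nat.primeCounting_eq_primeCounting'_succ]
      congr 1
      omega
    have h3 : Nat.primeCounting' 7 = 3 := by decide
    have h4 : Nat.totient 6 = 2 := by decide
    rw [h3, h4] at h1
    omega

lemma five_l {a c u w : ℕ} (hac : a < c) (hcu : 5 * c < 2 * (u + 1)) (huw : u < w)
    (heq : hs u w = hs a c) : 5 * (c - a) < 2 * (w - u) := by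
  have h1 := hs_le huw.le
  have h2 := hs_ge hac.le
  have h3 : ((c : ℚ) - a) / c ≤ ((w : ℚ) - u) / (u + 1) := by
    rw [heq] at h1
    linarith
  have hc0 : (0 : ℚ) < c := by
    have : 0 < c := by omega
    exact_mod_cast this
  rw [div_le_div_iff₀ hc0 (by positivity)] at h3
  have h4 : (5 * c : ℚ) < 2 * (u + 1) := by exact_mod_cast hcu
  have h5 : (0 : ℚ) < (w : ℚ) - u := by
    have : (u : ℚ) < w := by exact_mod_cast huw
    linarith
  have h6 : 5 * ((c : ℚ) - a) * (u + 1) < 2 * ((w : ℚ) - u) * (u + 1) := by nlinarith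
  have h7 : 5 * ((c : ℚ) - a) < 2 * ((w : ℚ) - u) := by
    exact lt_of_mul_lt_mul_right h6 (by positivity)
  have h8 : ((5 * (c - a) : ℕ) : ℚ) < ((2 * (w - u) : ℕ) : ℚ) := by
    push_cast [Nat.cast_sub hac.le, Nat.cast_sub huw.le]
    exact h7
  exact_mod_cast h8

/-- uniqueness of the multiple of a large prime in a short interval -/
lemma not_dvd_of_ne {u w p n0 n : ℕ} (hpk : w - u < p) (h0 : n0 ∈ Finset.Ioc u w)
    (hd : p ∣ n0) (hn : n ∈ Finset.Ioc u w) (hne : n ≠ n0) : ¬ p ∣ n := by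
  intro hdn
  rw [Finset.mem_Ioc] at h0 hn
  rcases lt_or_gt_of_ne hne with h | h
  · have h1 : p ∣ n0 - n := Nat.dvd_sub hd hdn
    have := Nat.le_of_dvd (by omega) h1
    omega
  · have h1 : p ∣ n - n0 := Nat.dvd_sub hdn hd
    have := Nat.le_of_dvd (by omega) h1
    omega

/-- structure of the `p`-part of the product over a short interval for `p > w - u` -/
lemma exists_n0 {u w p : ℕ} (hp : p.Prime) (hpk : w - u < p)
    (hv : (∏ n ∈ Finset.Ioc u w, n).factorization p ≠ 0) :
    ∃ n0 ∈ Finset.Ioc u w, p ∣ n0 ∧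
      (∏ n ∈ Finset.Ioc u w, n).factorization p = padicValNat p n0 := by
  have hdvd : p ∣ ∏ n ∈ Finset.Ioc u w, n := by
    by_contra h
    exact hv (Nat.factorization_eq_zero_of_not_dvd h)
  obtain ⟨n0, hn0, hd⟩ := (hp.prime.dvd_finsetProd_iff _).mp hdvd
  refine ⟨n0, hn0, hd, ?_⟩
  have hn0' := hn0
  rw [Finset.mem_Ioc] at hn0'
  rw [← Finset.mul_prod_erase _ _ hn0, Nat.factorization_mul]
  · simp only [Finsupp.coe_add, Pi.add_apply]
    have h1 : (∏ n ∈ (Finset.Ioc u w).erase n0, n).factorization p = 0 := by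
      apply Nat.factorization_eq_zero_of_not_dvd
      intro h2
      obtain ⟨n, hn, hdn⟩ := (hp.prime.dvd_finsetProd_iff _).mp h2
      rw [Finset.mem_erase] at hn
      exact not_dvd_of_ne hpk hn0 hd hn.2 hn.1 hdn
    rw [h1, Nat.factorization_def _ hp]
    rfl
  · omega
  · apply Finset.prod_ne_zero_iff.mpr
    intro n hn
    rw [Finset.mem_erase, Finset.mem_Ioc] at hn
    omega

lemma norm_hs_eq {u w p n0 : ℕ} (hp : p.Prime) (hpk : w - u < p) (h0 : n0 ∈ Finset.Ioc u w)
    (hd : p ∣ n0) : padicNorm p (hs u w) = (p : ℚ) ^ (padicValNat p n0) := by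
  have : Fact p.Prime := ⟨hp⟩
  apply norm_hs_of_unique h0
  intro n hn hne
  have h1 : ¬ p ∣ n := not_dvd_of_ne hpk h0 hd hn hne
  rw [padicValNat.eq_zero_of_not_dvd h1]
  have hn0 := h0
  rw [Finset.mem_Ioc] at hn0
  exact one_le_padicValNat_of_dvd (by omega) hd

lemma rough_le {a c u w p : ℕ} (huw : u < w) (heq : hs u w = hs a c) (hp : p.Prime)
    (hpk : w - u < p) :
    (w.choose (w - u)).factorization p ≤ (∏ n ∈ Finset.Ioc a c, n).factorization p := by
  have hfact : Fact p.Prime := ⟨hp⟩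
  rw [factorization_choose_eq huw.le hp hpk]
  rcases Nat.eq_zero_or_pos ((∏ n ∈ Finset.Ioc u w, n).factorization p) with h | h
  · omega
  · obtain ⟨n0, hn0, hd, hval⟩ := exists_n0 hp hpk (by omega)
    have hnorm := norm_hs_eq hp hpk hn0 hd
    rw [hval]
    obtain ⟨n', hn', hle⟩ := exists_of_norm_hs (p := p) (a := a) (b := c)
      (v := padicValNat p n0) (by rw [← heq, hnorm])
    have h1 : p ^ (padicValNat p n0) ∣ ∏ n ∈ Finset.Ioc a c, n := by
      refine dvd_trans ?_ (Finset.dvd_prod_of_mem (fun n => n) hn')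
      rw [Finset.mem_Ioc] at hn'
      exact (padicValNat_dvd_iff_le (by omega)).mpr hle
    exact (hp.pow_dvd_iff_le_factorization prod_Ioc_pos.ne').mp h1

/-- (★) -/
lemma choose_le_star {a c u w : ℕ} (huw : u < w) (hcw : c ≤ w) (heq : hs u w = hs a c) :
    w.choose (w - u) ≤ w ^ (Nat.primeCounting (w - u) + (c - a)) := by
  have hw0 : 0 < w := by omega
  have h1 : w.choose (w - u) ∣ smo (w - u) w * ∏ n ∈ Finset.Ioc a c, n := by
    rw [← Nat.factorization_prime_le_iff_dvd (Nat.choose_pos (Nat.sub_le w u)).ne'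
      (Nat.mul_pos (smo_pos _ _) prod_Ioc_pos).ne']
    intro p hp
    rw [Nat.factorization_mul (smo_pos _ _).ne' prod_Ioc_pos.ne']
    simp only [Finsupp.coe_add, Pi.add_apply]
    rcases Nat.lt_or_ge (w - u) p with hpk | hpk
    · have := rough_le huw heq hp hpk
      omega
    · have h2 := smo_factorization (w := w) hp hpk
      have h3 := Nat.factorization_choose_le_log (p := p) (n := w) (k := w - u)
      omega
  have h2 := Nat.le_of_dvd (Nat.mul_pos (smo_pos _ _) prod_Ioc_pos) h1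
  have h3 : ∏ n ∈ Finset.Ioc a c, n ≤ w ^ (c - a) := by
    calc ∏ n ∈ Finset.Ioc a c, n ≤ ∏ n ∈ Finset.Ioc a c, w := by
          apply Finset.prod_le_prod'
          intro n hn
          rw [Finset.mem_Ioc] at hn
          omega
      _ = w ^ (c - a) := by rw [Finset.prod_const, Nat.card_Ioc]
  calc w.choose (w - u) ≤ smo (w - u) w * ∏ n ∈ Finset.Ioc a c, n := h2
    _ ≤ w ^ (Nat.primeCounting (w - u)) * w ^ (c - a) := Nat.mul_le_mul (smo_le hw0) h3
    _ = _ := by rw [← pow_add]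

/-- no prime `p > w - u` divides the interval when `(w - u)^2 ≥ w` -/
lemma rough_zero {a c u w p : ℕ} (hac : a < c) (hcu : c ≤ u) (huw : u < w)
    (hlk : c - a ≤ w - u) (hk2 : w ≤ (w - u) ^ 2)
    (heq : hs u w = hs a c) (hp : p.Prime) (hpk : w - u < p) :
    (w.choose (w - u)).factorization p = 0 := by
  have hfact : Fact p.Prime := ⟨hp⟩
  rw [factorization_choose_eq huw.le hp hpk]
  by_contra hne
  obtain ⟨n0, hn0, hd, hval⟩ := exists_n0 hp hpk hne
  have hnorm := norm_hs_eq hp hpk hn0 hd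
  have hn0' := hn0
  rw [Finset.mem_Ioc] at hn0'
  have hv1 : 1 ≤ padicValNat p n0 := one_le_padicValNat_of_dvd (by omega) hd
  obtain ⟨n', hn', hle⟩ := exists_of_norm_hs (p := p) (a := a) (b := c)
      (v := padicValNat p n0) (by rw [← heq, hnorm])
  have hn'' := hn'
  rw [Finset.mem_Ioc] at hn''
  have hd' : p ∣ n' := dvd_of_one_le_padicValNat (by omega)
  have hlp : c - a < p := by omega
  obtain ⟨x, hx⟩ := hd
  obtain ⟨y, hy⟩ := hd'
  have hp0 : 0 < p := hp.pos
  -- x < p, y < x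
  have hxp : x < p := by
    have h1 : p * x < p * p := by
      calc p * x = n0 := hx.symm
        _ ≤ w := hn0'.2
        _ ≤ (w - u) ^ 2 := hk2
        _ < p ^ 2 := Nat.pow_lt_pow_left hpk (by norm_num)
        _ = p * p := by ring
    exact lt_of_mul_lt_mul_left h1 (Nat.zero_le p)
  have hyx : y < x := by
    have h1 : p * y < p * x := by
      rw [← hx, ← hy]; omega
    exact lt_of_mul_lt_mul_left h1 (Nat.zero_le p)
  have hy0 : 0 < y := by
    rcases Nat.eq_zero_or_pos y with h | h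
    · rw [h] at hy; omega
    · exact h
  have hrest : ∀ (u w n0 : ℕ), w - u < p → n0 ∈ Finset.Ioc u w → p ∣ n0 →
      padicNorm p (hs u w - 1 / n0) ≤ 1 := by
    intro u w n0 hpk hn0 hd
    have h1 : hs u w - 1 / n0 = ∑ n ∈ (Finset.Ioc u w).erase n0, (1 : ℚ) / n := by
      unfold hs
      rw [← Finset.add_sum_erase _ _ hn0]
      ring
    rw [h1]
    apply padicNorm.sum_le'
    · intro n hn
      rw [Finset.mem_erase] at hn
      have hnd := not_dvd_of_ne hpk hn0 hd hn.2 hn.1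
      rw [padicNorm.div, padicNorm.one, (padicNorm.nat_eq_one_iff (p := p) n).mpr hnd]
      norm_num
    · norm_num
  have h1 := hrest u w n0 hpk hn0 ⟨x, hx⟩
  have h2 := hrest a c n' hlp hn' ⟨y, hy⟩
  have h3 : (1 : ℚ) / n' - 1 / n0 = (hs u w - 1 / n0) - (hs a c - 1 / n') := by
    rw [heq]; ring
  have h4 : padicNorm p ((1 : ℚ) / n' - 1 / n0) ≤ 1 := by
    rw [h3]
    exact le_trans padicNorm.sub (max_le h1 h2)
  have hxQ : (x : ℚ) ≠ 0 := by
    have : x ≠ 0 := by omega
    exact_mod_cast this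
  have hyQ : (y : ℚ) ≠ 0 := by exact_mod_cast hy0.ne'
  have hpQ : (p : ℚ) ≠ 0 := by exact_mod_cast hp0.ne'
  have h5 : (1 : ℚ) / n' - 1 / n0 = ((x - y : ℕ) : ℚ) / ((p : ℚ) * x * y) := by
    rw [hx, hy]
    push_cast [Nat.cast_sub hyx.le]
    field_simp
  have hnx : padicNorm p (x : ℚ) = 1 := by
    rw [padicNorm.nat_eq_one_iff]
    exact Nat.not_dvd_of_pos_of_lt (by omega) hxp
  have hny : padicNorm p (y : ℚ) = 1 := by
    rw [padicNorm.nat_eq_one_iff]
    exact Nat.not_dvd_of_pos_of_lt hy0 (by omega)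
  have hnxy : padicNorm p ((x - y : ℕ) : ℚ) = 1 := by
    rw [padicNorm.nat_eq_one_iff]
    exact Nat.not_dvd_of_pos_of_lt (by omega) (by omega)
  rw [h5, padicNorm.div, padicNorm.mul, padicNorm.mul, hnx, hny, hnxy,
    padicNorm.padicNorm_p_of_prime] at h4
  have hp1 : (1 : ℚ) < p := by exact_mod_cast hp.one_lt
  have h6 : (1 : ℚ) / ((p : ℚ)⁻¹ * 1 * 1) = p := by
    field_simp
  rw [h6] at h4
  linarith

/-- (★★) -/
lemma choose_le_star2 {a c u w : ℕ} (hac : a < c) (hcu : c ≤ u) (huw : u < w)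
    (hlk : c - a ≤ w - u) (hk2 : w ≤ (w - u) ^ 2) (heq : hs u w = hs a c) :
    w.choose (w - u) ≤ w ^ (Nat.primeCounting (w - u)) := by
  have hw0 : 0 < w := by omega
  have h1 : w.choose (w - u) ∣ smo (w - u) w := by
    rw [← Nat.factorization_prime_le_iff_dvd (Nat.choose_pos (Nat.sub_le w u)).ne'
      (smo_pos _ _).ne']
    intro p hp
    rcases Nat.lt_or_ge (w - u) p with hpk | hpk
    · have := rough_zero hac hcu huw hlk hk2 heq hp hpk
      omega
    · have h2 := smo_factorization (w := w) hp hpk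
      have h3 := Nat.factorization_choose_le_log (p := p) (n := w) (k := w - u)
      omega
  exact le_trans (Nat.le_of_dvd (smo_pos _ _) h1) (smo_le hw0)

/-- lower bound for the binomial coefficient -/
lemma pow_le_choose' {u w : ℕ} (huw : u ≤ w) :
    u ^ (w - u) ≤ (w - u) ^ (w - u) * w.choose (w - u) := by
  have h1 : u ^ (w - u) ≤ ∏ n ∈ Finset.Ioc u w, n := by
    calc u ^ (w - u) = ∏ n ∈ Finset.Ioc u w, u := by rw [Finset.prod_const, Nat.card_Ioc]
      _ ≤ ∏ n ∈ Finset.Ioc u w, n := by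
          apply Finset.prod_le_prod'
          intro n hn
          rw [Finset.mem_Ioc] at hn
          omega
  rw [prod_Ioc_eq huw] at h1
  have h2 : (w - u).factorial ≤ (w - u) ^ (w - u) := Nat.factorial_le_pow _
  calc u ^ (w - u) ≤ w.choose (w - u) * (w - u).factorial := h1
    _ ≤ w.choose (w - u) * (w - u) ^ (w - u) := Nat.mul_le_mul_left _ h2
    _ = _ := by ring

/-- the special case of three consecutive unit fractions summing to a unit fraction -/
lemma three_ne {a u : ℕ} : hs u (u + 3) ≠ hs a (a + 1) := by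
  intro heq
  have h1 : hs u (u + 3) = 1 / ((u : ℚ) + 1) + 1 / ((u : ℚ) + 2) + 1 / ((u : ℚ) + 3) := by
    unfold hs
    rw [show u + 3 = u + 2 + 1 by rfl, Finset.sum_Ioc_succ_top (by omega),
      show u + 2 = u + 1 + 1 by rfl, Finset.sum_Ioc_succ_top (by omega),
      Finset.sum_Ioc_succ_top (by omega)]
    simp only [Finset.Ioc_self, Finset.sum_empty, zero_add]
    push_cast
    ring
  have h2 : hs a (a + 1) = 1 / ((a : ℚ) + 1) := by
    unfold hs
    rw [Finset.sum_Ioc_succ_top (by omega)]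
    simp
  rw [h1, h2] at heq
  have hu1 : ((u : ℚ) + 1) ≠ 0 := by positivity
  have hu2 : ((u : ℚ) + 2) ≠ 0 := by positivity
  have hu3 : ((u : ℚ) + 3) ≠ 0 := by positivity
  have ha1 : ((a : ℚ) + 1) ≠ 0 := by positivity
  field_simp at heq
  have h3 : (((u + 2) * (u + 3) + (u + 1) * (u + 3) + (u + 1) * (u + 2)) * (a + 1) : ℤ)
      = (u + 1) * (u + 2) * (u + 3) := by
    have h4 : ((((u + 2) * (u + 3) + (u + 1) * (u + 3) + (u + 1) * (u + 2)) * (a + 1) : ℤ) : ℚ)
      = (((u + 1) * (u + 2) * (u + 3) : ℤ) : ℚ) := by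
      push_cast
      linarith
    exact_mod_cast h4
  -- n = u + 2 : (3 n^2 - 1)(a+1) = n^3 - n
  set n : ℤ := (u : ℤ) + 2 with hn
  have h5 : (3 * n ^ 2 - 1) * ((a : ℤ) + 1) = n ^ 3 - n := by
    rw [hn]; linarith
  have h6 : (3 * n ^ 2 - 1) * (n - 3 * ((a : ℤ) + 1)) = 2 * n := by
    linear_combination (-3) * h5
  have hn2 : 2 ≤ n := by rw [hn]; omega
  have h7 : (3 * n ^ 2 - 1) ∣ 2 * n := ⟨_, h6.symm⟩
  have h8 := Int.le_of_dvd (by omega) h7
  nlinarith

end Pool.Agent.P30.UnitInterval
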