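import Pool.Agent.P30.UnitIntervalE

/-!
The equality `hs u w = hs a c` is impossible for large `u` and short `(u, w]`.
-/

namespace Pool.Agent.P30.UnitInterval

open Finset

lemma exists_K : ∃ K : ℕ, 2 ≤ K ∧ ∀ k : ℕ, K ≤ k → 20 * Nat.primeCounting k ≤ k := by
  refine ⟨⌈Real.exp 76⌉₊ + 2, by omega, ?_⟩
  intro k hk
  have hk2 : 2 ≤ k := by omega
  have hk1 : (1 : ℝ) ≤ (k : ℝ) := by exact_mod_cast (by omega : 1 ≤ k)
  have h1 := pi_mul_log hk2
  have h2 := sqrt_mul_log_le hk1
  have h3 : Real.exp 76 ≤ (k : ℝ) := by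
    calc Real.exp 76 ≤ (⌈Real.exp 76⌉₊ : ℝ) := Nat.le_ceil _
      _ ≤ k := by exact_mod_cast (by omega)
  have h4 : (76 : ℝ) ≤ Real.log k := by
    rw [Real.le_log_iff_exp_le (by linarith)]
    exact h3
  have h5 : (Nat.primeCounting k : ℝ) * 76 ≤ (Nat.primeCounting k : ℝ) * Real.log k :=
    mul_le_mul_of_nonneg_left h4 (by positivity)
  have h6 : (20 : ℝ) * (Nat.primeCounting k : ℝ) ≤ k := by linarith
  exact_mod_cast h6

lemma caseA {a c u w : ℕ} (hac : a < c) (hcu : c ≤ u) (huw : u < w)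
    (h3000 : 3000 * (w - u) ≤ u) (hlk : c - a ≤ w - u) (hk2 : w ≤ (w - u) ^ 2) :
    hs u w ≠ hs a c := by
  intro heq
  set k := w - u with hk
  have h1 : u ^ k ≤ k ^ k * w.choose k := pow_le_choose' huw.le
  have h2 : w.choose k ≤ w ^ (Nat.primeCounting k) := choose_le_star2 hac hcu huw hlk hk2 heq
  have h3 : u ^ k ≤ k ^ k * w ^ (Nat.primeCounting k) :=
    le_trans h1 (Nat.mul_le_mul_left _ h2)
  have hk1 : 1 ≤ k := by omega
  have hkk : 2 ≤ k := by
    by_contra hcon
    have : k = 1 := by omega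
    rw [this] at hk2
    omega
  have hu0 : 0 < u := by omega
  have hw0 : 0 < w := by omega
  have huR : (0 : ℝ) < u := by exact_mod_cast hu0
  have hwR : (0 : ℝ) < w := by exact_mod_cast hw0
  have hkR : (2 : ℝ) ≤ k := by exact_mod_cast hkk
  have h4 : ((u : ℝ)) ^ k ≤ (k : ℝ) ^ k * (w : ℝ) ^ (Nat.primeCounting k) := by exact_mod_cast h3
  have h5 : Real.log ((u : ℝ) ^ k) ≤ Real.log ((k : ℝ) ^ k * (w : ℝ) ^ (Nat.primeCounting k)) :=
    Real.log_le_log (by positivity) h4
  rw [Real.log_mul (by positivity) (by positivity), Real.log_pow, Real.log_pow, Real.log_pow] at h5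
  have h6 : Real.log w ≤ 2 * Real.log k := by
    have h7 : (w : ℝ) ≤ (k : ℝ) ^ 2 := by exact_mod_cast hk2
    have h8 := Real.log_le_log hwR h7
    rw [Real.log_pow] at h8
    push_cast at h8
    exact h8
  have h7 := pi_mul_log hkk
  have h8 := sqrt_mul_log_le (x := (k : ℝ)) (by linarith)
  have h9 : (Nat.primeCounting k : ℝ) * Real.log w ≤ 7.6 * k := by
    have h10 : (Nat.primeCounting k : ℝ) * Real.log w ≤
        (Nat.primeCounting k : ℝ) * (2 * Real.log k) :=
      mul_le_mul_of_nonneg_left h6 (by positivity)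
    linarith
  have h10 : (k : ℝ) * Real.log u ≤ k * (Real.log k + 7.6) := by linarith
  have h11 : Real.log u ≤ Real.log k + 7.6 := le_of_mul_le_mul_left h10 (by linarith)
  have h12 : Real.log (2 ^ 11 * (k : ℝ)) ≤ Real.log u := by
    apply Real.log_le_log (by positivity)
    have : ((3000 * k : ℕ) : ℝ) ≤ (u : ℝ) := by exact_mod_cast h3000
    push_cast at this
    linarith
  rw [Real.log_mul (by norm_num) (by linarith), Real.log_pow] at h12
  have h13 := Real.log_two_gt_d9
  push_cast at h12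
  linarith

lemma caseB1 {a c u w K : ℕ} (hK : ∀ k : ℕ, K ≤ k → 20 * Nat.primeCounting k ≤ k)
    (hu : 2 ^ 20 ≤ u) (hcu : c ≤ u) (huw : u < w)
    (h3000 : 3000 * (w - u) ≤ u) (h5l : 5 * (c - a) < 2 * (w - u)) (hk2 : (w - u) ^ 2 < w)
    (hkK : K ≤ w - u) :
    hs u w ≠ hs a c := by
  intro heq
  set k := w - u with hk
  set l := c - a with hl
  have h1 : u ^ k ≤ k ^ k * w.choose k := pow_le_choose' huw.le
  have h2 : w.choose k ≤ w ^ (Nat.primeCounting k + l) := choose_le_star huw (by omega) heq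
  have h3 : u ^ k ≤ k ^ k * w ^ (Nat.primeCounting k + l) :=
    le_trans h1 (Nat.mul_le_mul_left _ h2)
  have hk1 : 1 ≤ k := by omega
  have hu0 : 0 < u := by omega
  have hw0 : 0 < w := by omega
  have huR : (0 : ℝ) < u := by exact_mod_cast hu0
  have hwR : (1 : ℝ) < w := by exact_mod_cast (by omega : 1 < w)
  have hkR : (1 : ℝ) ≤ k := by exact_mod_cast hk1
  have h4 : ((u : ℝ)) ^ k ≤ (k : ℝ) ^ k * (w : ℝ) ^ (Nat.primeCounting k + l) := by
    exact_mod_cast h3
  have h5 : Real.log ((u : ℝ) ^ k) ≤ Real.log ((k : ℝ) ^ k * (w : ℝ) ^ (Nat.primeCounting k + l)) :=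
    Real.log_le_log (by positivity) h4
  rw [Real.log_mul (by positivity) (by positivity), Real.log_pow, Real.log_pow, Real.log_pow] at h5
  have hlw : 0 < Real.log w := Real.log_pos hwR
  have h6 : 2 * Real.log k ≤ Real.log w := by
    have h7 : (k : ℝ) ^ 2 ≤ (w : ℝ) := by exact_mod_cast hk2.le
    have h8 := Real.log_le_log (by positivity) h7
    rw [Real.log_pow] at h8
    push_cast at h8
    exact h8
  have h7 : (20 : ℝ) * (Nat.primeCounting k : ℝ) ≤ k := by exact_mod_cast hK k hkK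
  have h8 : (5 : ℝ) * (l : ℝ) ≤ 2 * k := by exact_mod_cast h5l.le
  have h9 : (((Nat.primeCounting k + l : ℕ)) : ℝ) ≤ 0.45 * k := by
    push_cast
    linarith
  have h10 : (((Nat.primeCounting k + l : ℕ)) : ℝ) * Real.log w ≤ 0.45 * k * Real.log w :=
    mul_le_mul_of_nonneg_right h9 hlw.le
  have h11 : (k : ℝ) * Real.log k ≤ k * (Real.log w / 2) :=
    mul_le_mul_of_nonneg_left (by linarith) (by linarith)
  have h12 : (k : ℝ) * Real.log u ≤ k * (0.95 * Real.log w) := by linarith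
  have h13 : Real.log u ≤ 0.95 * Real.log w := le_of_mul_le_mul_left h12 (by linarith)
  have h14 : Real.log w ≤ Real.log 2 + Real.log u := by
    rw [← Real.log_mul (by norm_num) huR.ne']
    apply Real.log_le_log (by linarith)
    have : w ≤ 2 * u := by omega
    exact_mod_cast this
  have h15 : Real.log ((2 : ℝ) ^ 20) ≤ Real.log u := by
    apply Real.log_le_log (by positivity)
    exact_mod_cast hu
  rw [Real.log_pow] at h15
  push_cast at h15
  have h16 := Real.log_two_gt_d9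
  linarith

lemma caseB2 {a c u w K : ℕ} (hu : (2 * K) ^ K < u) (hac : a < c)
    (hcu : c ≤ u) (huw : u < w)
    (h3000 : 3000 * (w - u) ≤ u) (h5l : 5 * (c - a) < 2 * (w - u))
    (hkK : w - u < K) :
    hs u w ≠ hs a c := by
  intro heq
  set k := w - u with hk
  set l := c - a with hl
  have hl1 : 1 ≤ l := by omega
  have hk3 : 3 ≤ k := by omega
  rcases Nat.lt_or_ge k 4 with h4 | h4
  · have hk' : k = 3 := by omega
    have hl' : l = 1 := by omega
    have hw : w = u + 3 := by omega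
    have hc : c = a + 1 := by omega
    rw [hw, hc] at heq
    exact three_ne heq
  · have h0 := pi_add_le h4 h5l
    have h1 : u ^ k ≤ k ^ k * w.choose k := pow_le_choose' huw.le
    have h2 : w.choose k ≤ w ^ (Nat.primeCounting k + l) := choose_le_star huw (by omega) heq
    have hw0 : 0 < w := by omega
    have h3 : w ^ (Nat.primeCounting k + l) ≤ w ^ (k - 1) := Nat.pow_le_pow_right hw0 h0
    have h5 : w ^ (k - 1) ≤ (2 * u) ^ (k - 1) := Nat.pow_le_pow_left (by omega) _
    have h6 : u ^ k ≤ k ^ k * (2 * u) ^ (k - 1) := by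
      calc u ^ k ≤ k ^ k * w.choose k := h1
        _ ≤ k ^ k * (2 * u) ^ (k - 1) := Nat.mul_le_mul_left _ (h2.trans (h3.trans h5))
    have h7 : u ^ k = u ^ (k - 1) * u := by
      rw [← pow_succ]
      congr 1
      omega
    rw [h7, mul_pow] at h6
    have h8 : u ^ (k - 1) * u ≤ u ^ (k - 1) * (k ^ k * 2 ^ (k - 1)) := by
      calc u ^ (k - 1) * u ≤ k ^ k * (2 ^ (k - 1) * u ^ (k - 1)) := h6
        _ = _ := by ring
    have hu0 : 0 < u := by omega
    have h9 : u ≤ k ^ k * 2 ^ (k - 1) := Nat.le_of_mul_le_mul_left h8 (Nat.pow_pos hu0)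
    have h10 : k ^ k * 2 ^ (k - 1) ≤ (2 * K) ^ K := by
      calc k ^ k * 2 ^ (k - 1) ≤ k ^ k * 2 ^ k :=
            Nat.mul_le_mul_left _ (Nat.pow_le_pow_right (by norm_num) (by omega))
        _ = (2 * k) ^ k := by rw [mul_pow]; ring
        _ ≤ (2 * K) ^ k := Nat.pow_le_pow_left (by omega) _
        _ ≤ (2 * K) ^ K := Nat.pow_le_pow_right (by omega) (by omega)
    omega

/-- no equality of harmonic sums -/
lemma eq_excl : ∃ U0 : ℕ, ∀ a c u w : ℕ, U0 ≤ u → a < c → c ≤ u → 5 * c < 2 * (u + 1) → u < w →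
    3000 * (w - u) ≤ u → hs u w ≠ hs a c := by
  obtain ⟨K, hK2, hK⟩ := exists_K
  refine ⟨max (2 ^ 20) ((2 * K) ^ K + 1), ?_⟩
  intro a c u w hu hac hcu h5c huw h3000 heq
  have hu1 : 2 ^ 20 ≤ u := le_trans (le_max_left _ _) hu
  have hu2 : (2 * K) ^ K < u := by
    have := le_trans (le_max_right _ _) hu
    omega
  have h5l := five_l hac h5c huw heq
  rcases Nat.lt_or_ge ((w - u) ^ 2) w with hk2 | hk2
  · rcases Nat.lt_or_ge (w - u) K with hkK | hkK
    · exact caseB2 hu2 hac hcu huw h3000 h5l hkK heq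
    · exact caseB1 hK hu1 hcu huw h3000 h5l hk2 hkK heq
  · exact caseA hac hcu huw h3000 (by omega) hk2 heq

end Pool.Agent.P30.UnitInterval
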