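import Pool.Agent.P30.UnitIntervalF

/-!
Size of the common denominators, and the gap principle.
-/

namespace Pool.Agent.P30.UnitInterval

open Finset

/-- `log C(n,j) ≤ j + w/100` when `j` is small compared with `w` and `n ≤ w` -/
lemma log_choose_le {n j w : ℕ} (hj : 1 ≤ j) (hjn : j ≤ n)
    (h : (400 : ℝ) ^ 4 * ((j : ℝ) ^ 3 * n) ≤ (w : ℝ) ^ 4) :
    Real.log (n.choose j) ≤ j + w / 100 := by
  have hjR : (1 : ℝ) ≤ j := by exact_mod_cast hj
  have hj0 : (0 : ℝ) < j := by linarith
  have hnR : (j : ℝ) ≤ n := by exact_mod_cast hjn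
  have hn0 : (0 : ℝ) < n := by linarith
  have hch : (0 : ℝ) < (n.choose j : ℝ) := by exact_mod_cast Nat.choose_pos hjn
  -- C(n,j) ≤ n^j / j! ≤ (e n / j)^j
  have h1 : (n.choose j : ℝ) ≤ (n : ℝ) ^ j / (j.factorial : ℝ) := Nat.choose_le_pow_div j n
  have h2 : (j : ℝ) ^ j / (j.factorial : ℝ) ≤ Real.exp j :=
    Real.pow_div_factorial_le_exp (j : ℝ) hj0.le j
  have hf : (0 : ℝ) < (j.factorial : ℝ) := by exact_mod_cast Nat.factorial_pos j
  have h3 : (n.choose j : ℝ) ≤ Real.exp j * ((n : ℝ) / j) ^ j := by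
    have h4 : (n : ℝ) ^ j / (j.factorial : ℝ) = ((j : ℝ) ^ j / (j.factorial : ℝ)) * ((n : ℝ) / j) ^ j := by
      rw [div_pow]
      field_simp
    rw [h4] at h1
    exact le_trans h1 (mul_le_mul_of_nonneg_right h2 (by positivity))
  have h4 : Real.log (n.choose j) ≤ j + j * Real.log ((n : ℝ) / j) := by
    have h5 := Real.log_le_log hch h3
    rw [Real.log_mul (Real.exp_pos _).ne' (by positivity), Real.log_exp, Real.log_pow] at h5
    exact h5
  have hz : (1 : ℝ) ≤ (n : ℝ) / j := by
    rw [le_div_iff₀ hj0]; linarith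
  have h5 := log_le_four hz
  set y := √(√((n : ℝ) / j)) with hy
  have hy4 : y ^ 4 = (n : ℝ) / j := sqrt_sqrt_pow (by positivity)
  have hy0 : 0 ≤ y := Real.sqrt_nonneg _
  have h6 : (400 * (j * y)) ^ 4 ≤ (w : ℝ) ^ 4 := by
    calc (400 * (j * y)) ^ 4 = 400 ^ 4 * ((j : ℝ) ^ 4 * y ^ 4) := by ring
      _ = 400 ^ 4 * ((j : ℝ) ^ 3 * n) := by
          rw [hy4]
          field_simp
      _ ≤ _ := h
  have h7 : 400 * (j * y) ≤ (w : ℝ) := by
    by_contra hcon
    push Not at hcon
    have : (w : ℝ) ^ 4 < (400 * (j * y)) ^ 4 :=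
      pow_lt_pow_left₀ hcon (by positivity) (by norm_num)
    linarith
  have h8 : (j : ℝ) * Real.log ((n : ℝ) / j) ≤ j * (4 * y) :=
    mul_le_mul_of_nonneg_left h5 hj0.le
  linarith

/-- bound for `π(k) log w` -/
lemma pi_log_small {k w : ℕ} (hk1 : 1 ≤ k) (hkw : 3000 * k ≤ w) (hw : 4000 ^ 4 ≤ w) :
    (Nat.primeCounting k : ℝ) * Real.log w ≤ 0.003 * w := by
  have hw1 : (1 : ℝ) ≤ w := by
    have : 1 ≤ w := by omega
    exact_mod_cast this
  have hlw : 0 ≤ Real.log w := Real.log_nonneg hw1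
  have hkwR : (3000 : ℝ) * k ≤ w := by exact_mod_cast hkw
  rcases Nat.lt_or_ge (k ^ 2) w with hk2 | hk2
  · -- π(k) ≤ k ≤ √w
    have h1 : (Nat.primeCounting k : ℝ) ≤ k := by
      have h0 : Nat.primeCounting k ≤ k := by
        rw [← Nat.primesLE_card_eq_primeCounting]
        calc (Nat.primesLE k).card ≤ (Finset.Icc 1 k).card := by
              apply Finset.card_le_card
              intro p hp
              rw [Nat.mem_primesLE] at hp
              rw [Finset.mem_Icc]
              exact ⟨hp.2.pos, hp.1⟩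
          _ = k := by simp
      exact_mod_cast h0
    have h2 : (k : ℝ) ≤ √w := by
      apply Real.le_sqrt_of_sq_le
      exact_mod_cast hk2.le
    have h3 : (Nat.primeCounting k : ℝ) * Real.log w ≤ √w * Real.log w :=
      mul_le_mul_of_nonneg_right (by linarith) hlw
    have h4 := log_le_four hw1
    set y := √(√(w : ℝ)) with hy
    have hy4 : y ^ 4 = (w : ℝ) := sqrt_sqrt_pow (by positivity)
    have hy2 : y ^ 2 = √(w : ℝ) := Real.sq_sqrt (Real.sqrt_nonneg _)
    have hy0 : 0 ≤ y := Real.sqrt_nonneg _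
    have hy4000 : 4000 ≤ y := by
      by_contra hcon
      push Not at hcon
      have h5 : y ^ 4 < 4000 ^ 4 := pow_lt_pow_left₀ hcon hy0 (by norm_num)
      rw [hy4] at h5
      have h6 : ((4000 : ℝ)) ^ 4 ≤ (w : ℝ) := by exact_mod_cast hw
      linarith
    have h5 : √(w : ℝ) * Real.log w ≤ y ^ 2 * (4 * y) := by
      rw [← hy2]
      exact mul_le_mul_of_nonneg_left h4 (by positivity)
    have h6 : y ^ 2 * (4 * y) ≤ 0.001 * y ^ 4 := by
      have h7 : 4000 * y ^ 3 ≤ y * y ^ 3 := mul_le_mul_of_nonneg_right hy4000 (by positivity)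
      nlinarith
    rw [hy4] at h6
    linarith
  · have hkk : 2 ≤ k := by
      by_contra hcon
      have : k = 1 := by omega
      rw [this] at hk2
      omega
    have hkR : (2 : ℝ) ≤ k := by exact_mod_cast hkk
    have h6 : Real.log w ≤ 2 * Real.log k := by
      have h7 : (w : ℝ) ≤ (k : ℝ) ^ 2 := by exact_mod_cast hk2
      have h8 := Real.log_le_log (by linarith) h7
      rw [Real.log_pow] at h8
      push_cast at h8
      exact h8
    have h7 := pi_mul_log hkk
    have h8 := sqrt_mul_log_le (x := (k : ℝ)) (by linarith)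
    have h10 : (Nat.primeCounting k : ℝ) * Real.log w ≤
        (Nat.primeCounting k : ℝ) * (2 * Real.log k) :=
      mul_le_mul_of_nonneg_left h6 (by positivity)
    linarith

/-- the denominators are small -/
lemma log_den_le {x y k w : ℕ} (hxy : x < y) (hyw : y ≤ w) (hk : y - x ≤ k)
    (hkw : 3000 * k ≤ w) (hw : 4000 ^ 4 ≤ w) :
    Real.log (den x y) ≤ 0.014 * w := by
  have hk1 : 1 ≤ k := by omega
  have hy0 : 0 < y := by omega
  have hw0 : 0 < w := by omega
  have hkwR : (3000 : ℝ) * k ≤ w := by exact_mod_cast hkw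
  have hwR : (0 : ℝ) < w := by exact_mod_cast hw0
  have hkR : (1 : ℝ) ≤ k := by exact_mod_cast hk1
  have h1 : den x y ≤ w ^ (Nat.primeCounting k) * y.choose (y - x) := by
    refine le_trans (den_le hy0) (Nat.mul_le_mul_right _ ?_)
    calc y ^ (Nat.primeCounting (y - x)) ≤ w ^ (Nat.primeCounting (y - x)) :=
          Nat.pow_le_pow_left hyw _
      _ ≤ w ^ (Nat.primeCounting k) :=
          Nat.pow_le_pow_right hw0 (Nat.monotone_primeCounting hk)
  have hch : 0 < y.choose (y - x) := Nat.choose_pos (Nat.sub_le y x)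
  have hchR : (0 : ℝ) < (y.choose (y - x) : ℝ) := by exact_mod_cast hch
  have h2 : Real.log (den x y) ≤
      Real.log ((w : ℝ) ^ (Nat.primeCounting k) * (y.choose (y - x) : ℝ)) := by
    apply Real.log_le_log
    · exact_mod_cast den_pos
    · exact_mod_cast h1
  rw [Real.log_mul (by positivity) hchR.ne', Real.log_pow] at h2
  have h3 := pi_log_small hk1 hkw hw
  have h4 : Real.log (y.choose (y - x)) ≤ ((y - x : ℕ) : ℝ) + w / 100 := by
    apply log_choose_le (by omega) (Nat.sub_le y x)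
    have h5 : ((y - x : ℕ) : ℝ) ≤ k := by exact_mod_cast hk
    have h6 : (y : ℝ) ≤ w := by exact_mod_cast hyw
    have h7 : ((y - x : ℕ) : ℝ) ^ 3 * y ≤ (k : ℝ) ^ 3 * w := by
      apply mul_le_mul
      · exact pow_le_pow_left₀ (by positivity) h5 3
      · exact h6
      · positivity
      · positivity
    have h8 : (3000 : ℝ) ^ 3 * (k : ℝ) ^ 3 ≤ (w : ℝ) ^ 3 := by
      rw [← mul_pow]
      exact pow_le_pow_left₀ (by positivity) hkwR 3
    calc (400 : ℝ) ^ 4 * (((y - x : ℕ) : ℝ) ^ 3 * y) ≤ (400 : ℝ) ^ 4 * ((k : ℝ) ^ 3 * w) := by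
          apply mul_le_mul_of_nonneg_left h7 (by norm_num)
      _ ≤ (3000 : ℝ) ^ 3 * (k : ℝ) ^ 3 * w := by
          have : 0 ≤ (k : ℝ) ^ 3 * w := by positivity
          nlinarith
      _ ≤ (w : ℝ) ^ 3 * w := mul_le_mul_of_nonneg_right h8 hwR.le
      _ = (w : ℝ) ^ 4 := by ring
  have h5 : ((y - x : ℕ) : ℝ) ≤ k := by exact_mod_cast hk
  linarith

lemma exp_neg_small {b : ℝ} (hb : 1000 ≤ b) : Real.exp (-(b / 5)) < 1 / (4 * b) := by
  have h1 : 1 + b / 5 + (b / 5) ^ 2 / 2 ≤ Real.exp (b / 5) :=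
    Real.quadratic_le_exp_of_nonneg (by linarith)
  rw [Real.exp_neg, ← one_div]
  apply one_div_lt_one_div_of_lt (by linarith)
  nlinarith

lemma inv_m_le {a b m s : ℕ} (h : Sol a b m s) (hb : 300 ^ 4 ≤ b) :
    (1 : ℝ) / m ≤ Real.exp (-((b : ℝ) / 5)) := by
  have h1 := log_m_ge h hb
  have hm : (0 : ℝ) < m := by
    have := h.hm
    exact_mod_cast this
  have h2 : Real.exp ((b : ℝ) / 5) ≤ m := by
    rwa [← Real.le_log_iff_exp_le hm]
  rw [Real.exp_neg, ← one_div]
  exact one_div_le_one_div_of_le (Real.exp_pos _) h2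

/-- Gap principle: two solutions with the same integer value are far apart. -/
lemma gap : ∃ B : ℕ, ∀ a b m a' b' m' s : ℕ, B ≤ b → Sol a b m s → Sol a' b' m' s →
    b ≤ b' → 3000 * (b' - b) ≤ b → a = a' ∧ b = b' := by
  obtain ⟨U0, hU0⟩ := eq_excl
  refine ⟨max U0 (4000 ^ 4), ?_⟩
  intro a b m a' b' m' s hB h h' hbb' h3000
  have hbU : U0 ≤ b := le_trans (le_max_left _ _) hB
  have hb4 : 4000 ^ 4 ≤ b := le_trans (le_max_right _ _) hB
  have hb3 : 300 ^ 4 ≤ b := by omega
  have hb3' : 300 ^ 4 ≤ b' := by omega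
  have hbR : (4000 : ℝ) ^ 4 ≤ b := by exact_mod_cast hb4
  have hbR' : (b : ℝ) ≤ b' := by exact_mod_cast hbb'
  have hE : Real.exp (-((b : ℝ) / 5)) < 1 / (4 * b) := exp_neg_small (by linarith)
  have hm1 := inv_m_le h hb3
  have hm1' : (1 : ℝ) / m' ≤ Real.exp (-((b : ℝ) / 5)) := by
    refine le_trans (inv_m_le h' hb3') ?_
    apply Real.exp_le_exp.mpr
    linarith
  have hmpos : (0 : ℝ) < 1 / m := by
    have : (0 : ℝ) < m := by
      have := h.hm
      exact_mod_cast this
    positivity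
  have hmpos' : (0 : ℝ) < 1 / m' := by
    have : (0 : ℝ) < m' := by
      have := h'.hm
      exact_mod_cast this
    positivity
  have heq : ((hs a b : ℚ) : ℝ) + 1 / m = s := by
    have := h.eq
    have h2 : (((hs a b + (1 : ℚ) / (m : ℚ)) : ℚ) : ℝ) = (((s : ℚ)) : ℝ) := by rw [this]
    push_cast at h2
    exact h2
  have heq' : ((hs a' b' : ℚ) : ℝ) + 1 / m' = s := by
    have := h'.eq
    have h2 : (((hs a' b' + (1 : ℚ) / (m' : ℚ)) : ℚ) : ℝ) = (((s : ℚ)) : ℝ) := by rw [this]
    push_cast at h2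
    exact h2
  have hb0 : (0 : ℝ) < b := by linarith [show (0 : ℝ) < 4000 ^ 4 by norm_num]
  have h4b : 1 / (4 * (b : ℝ)) < 1 / b := by
    apply one_div_lt_one_div_of_lt hb0
    linarith
  have hab := h.hab
  have hab' := h'.hab
  -- a lower bound for nonempty harmonic sums, in ℝ
  have hlow : ∀ x y : ℕ, x < y → (1 : ℝ) / y ≤ ((hs x y : ℚ) : ℝ) := by
    intro x y hxy
    have h1 := hs_ge hxy.le
    have h2 : (1 : ℚ) / y ≤ ((y : ℚ) - x) / y := by
      apply div_le_div_of_nonneg_right _ (by positivity)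
      have : ((x + 1 : ℕ) : ℚ) ≤ y := by exact_mod_cast hxy
      push_cast at this
      linarith
    have h3 : (1 : ℚ) / y ≤ hs x y := le_trans h2 h1
    have h4 : (((1 : ℚ) / (y : ℚ) : ℚ) : ℝ) ≤ ((hs x y : ℚ) : ℝ) := by exact_mod_cast h3
    push_cast at h4
    exact h4
  have hmono : ∀ x y : ℕ, 0 < x → x ≤ y → (1 : ℝ) / y ≤ 1 / x := by
    intro x y hx hxy
    apply one_div_le_one_div_of_le
    · exact_mod_cast hx
    · exact_mod_cast hxy
  rcases Nat.eq_or_lt_of_le hbb' with hbeq | hblt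
  · refine ⟨?_, hbeq⟩
    subst hbeq
    by_contra hne
    rcases lt_or_gt_of_ne hne with hlt | hlt
    · have h1 : hs a a' + hs a' b = hs a b := hs_add hlt.le hab'.le
      have h2 : ((hs a a' : ℚ) : ℝ) + ((hs a' b : ℚ) : ℝ) = ((hs a b : ℚ) : ℝ) := by
        rw [← h1]; push_cast; ring
      have h3 := hlow a a' hlt
      have h4 := hmono a' b (by omega) hab'.le
      linarith
    · have h1 : hs a' a + hs a b = hs a' b := hs_add (le_of_lt hlt) hab.le
      have h2 : ((hs a' a : ℚ) : ℝ) + ((hs a b : ℚ) : ℝ) = ((hs a' b : ℚ) : ℝ) := by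
        rw [← h1]; push_cast; ring
      have h3 := hlow a' a hlt
      have h4 := hmono a b (by omega) hab.le
      linarith
  · exfalso
    have hb'2 : (b' : ℝ) ≤ 2 * b := by
      have : b' ≤ 2 * b := by omega
      exact_mod_cast this
    rcases Nat.lt_or_ge a a' with haa | haa
    · -- main case
      have h13 := thirteen h' (by omega)
      have ha'b : a' ≤ b := by omega
      have h5c : 5 * a' < 2 * (b + 1) := by omega
      have hadd1 : hs a a' + hs a' b' = hs a b' := hs_add haa.le hab'.le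
      have hadd2 : hs a b + hs b b' = hs a b' := hs_add hab.le hblt.le
      have hdiffQ : hs b b' - hs a a' = (1 : ℚ) / m - 1 / m' := by
        have e1 := h.eq
        have e2 := h'.eq
        linarith
      have hne := hU0 a a' b b' hbU haa ha'b h5c hblt h3000
      have hδ : hs b b' - hs a a' ≠ 0 := fun h0 => hne (by linarith)
      -- l ≤ k
      have hlk : a' - a ≤ b' - b := by
        by_contra hcon
        push Not at hcon
        have h1 := hs_ge haa.le
        have h2 := hs_le hblt.le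
        have h3 : ((a' : ℚ) - a) / a' ≤ ((b' : ℚ) - b) / (b + 1) + 1 / m' := by
          have : (0 : ℚ) < 1 / m := by
            have : (0 : ℚ) < m := by
              have := h.hm
              exact_mod_cast this
            positivity
          linarith
        have h3R : ((a' : ℝ) - a) / a' ≤ ((b' : ℝ) - b) / (b + 1) + 1 / m' := by
          have : ((((a' : ℚ) - a) / a' : ℚ) : ℝ) ≤ ((((b' : ℚ) - b) / (b + 1) + 1 / m' : ℚ) : ℝ) := by
            exact_mod_cast h3
          push_cast at this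
          exact this
        have ha0 : (0 : ℝ) < a' := by
          have : 0 < a' := by omega
          exact_mod_cast this
        have h5cR : (5 : ℝ) * a' ≤ 2 * (b + 1) := by exact_mod_cast h5c.le
        have hk0 : (1 : ℝ) ≤ (b' : ℝ) - b := by
          have : ((b + 1 : ℕ) : ℝ) ≤ b' := by exact_mod_cast hblt
          push_cast at this
          linarith
        have h4 : (a' : ℝ) - a ≤ a' * (((b' : ℝ) - b) / (b + 1)) + a' * (1 / m') := by
          rw [div_le_iff₀ ha0] at h3R
          linarith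
        have h5 : (a' : ℝ) * (((b' : ℝ) - b) / (b + 1)) ≤ 2 / 5 * ((b' : ℝ) - b) := by
          have h6 : (a' : ℝ) * (((b' : ℝ) - b) / (b + 1)) = (a' / (b + 1)) * ((b' : ℝ) - b) := by
            ring
          rw [h6]
          apply mul_le_mul_of_nonneg_right _ (by linarith)
          rw [div_le_iff₀ (by linarith)]
          linarith
        have h6 : (a' : ℝ) * (1 / m') ≤ 1 / 4 := by
          have h7 : (a' : ℝ) * (1 / m') ≤ a' * (1 / (4 * b)) :=
            mul_le_mul_of_nonneg_left (by linarith) ha0.le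
          have h8 : (a' : ℝ) * (1 / (4 * b)) ≤ 1 / 4 := by
            rw [mul_one_div, div_le_div_iff₀ (by linarith) (by norm_num)]
            have : (a' : ℝ) ≤ b := by exact_mod_cast ha'b
            linarith
          linarith
        have h7 : ((b' : ℝ) - b) + 1 ≤ (a' : ℝ) - a := by
          have h8 : b' - b + 1 ≤ a' - a := hcon
          have h9 : ((b' - b + 1 : ℕ) : ℝ) ≤ ((a' - a : ℕ) : ℝ) := by exact_mod_cast h8
          push_cast [Nat.cast_sub hblt.le, Nat.cast_sub haa.le] at h9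
          exact h9
        linarith
      have hkw : 3000 * (b' - b) ≤ b' := by omega
      have hw4 : 4000 ^ 4 ≤ b' := by omega
      have hD1 := log_den_le (x := b) (y := b') (k := b' - b) (w := b') hblt le_rfl le_rfl hkw hw4
      have hD2 := log_den_le (x := a) (y := a') (k := b' - b) (w := b') haa (by omega) hlk hkw hw4
      obtain ⟨z1, hz1⟩ := den_mul_hs (u := b) (w := b') hblt.le
      obtain ⟨z2, hz2⟩ := den_mul_hs (u := a) (w := a') haa.le
      set D1 := den b b' with hD1def
      set D2 := den a a' with hD2def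
      have hD1pos : 0 < D1 := den_pos
      have hD2pos : 0 < D2 := den_pos
      have hint : ((D1 : ℚ) * D2) * (hs b b' - hs a a') = ((D2 * z1 - D1 * z2 : ℤ) : ℚ) := by
        push_cast
        rw [← hz1, ← hz2]
        ring
      have hDpos : (0 : ℚ) < (D1 : ℚ) * D2 := by
        have e1 : (0 : ℚ) < D1 := by exact_mod_cast hD1pos
        have e2 : (0 : ℚ) < D2 := by exact_mod_cast hD2pos
        exact mul_pos e1 e2
      have hne0 : ((D2 : ℤ) * z1 - D1 * z2) ≠ 0 := by
        intro h0
        rw [h0] at hint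
        push_cast at hint
        rcases mul_eq_zero.mp hint with h1 | h1
        · linarith
        · exact hδ h1
      have habs : (1 : ℚ) ≤ |((D2 * z1 - D1 * z2 : ℤ) : ℚ)| := by
        have : (1 : ℤ) ≤ |(D2 : ℤ) * z1 - D1 * z2| := Int.one_le_abs hne0
        exact_mod_cast this
      rw [← hint, abs_mul, abs_of_pos hDpos, hdiffQ] at habs
      have habsR : (1 : ℝ) ≤ ((D1 : ℝ) * D2) * |(1 : ℝ) / m - 1 / m'| := by
        have : ((1 : ℚ) : ℝ) ≤ ((((D1 : ℚ) * D2) * |(1 : ℚ) / m - 1 / m'| : ℚ) : ℝ) := by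
          exact_mod_cast habs
        push_cast at this
        exact this
      have habs2 : |(1 : ℝ) / m - 1 / m'| ≤ Real.exp (-((b : ℝ) / 5)) := by
        rw [abs_le]
        constructor <;> linarith
      have hD1R : (0 : ℝ) < D1 := by exact_mod_cast hD1pos
      have hD2R : (0 : ℝ) < D2 := by exact_mod_cast hD2pos
      have hfin : (1 : ℝ) ≤ ((D1 : ℝ) * D2) * Real.exp (-((b : ℝ) / 5)) :=
        le_trans habsR (mul_le_mul_of_nonneg_left habs2 (by positivity))
      have hlog := Real.log_le_log (by norm_num) hfin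
      rw [Real.log_one, Real.log_mul (by positivity) (Real.exp_pos _).ne',
        Real.log_mul hD1R.ne' hD2R.ne', Real.log_exp] at hlog
      have h3000R : (3000 : ℝ) * ((b' : ℝ) - b) ≤ b := by
        have h8 : ((3000 * (b' - b) : ℕ) : ℝ) ≤ (b : ℝ) := by exact_mod_cast h3000
        push_cast [Nat.cast_sub hblt.le] at h8
        exact h8
      linarith
    · have h1 : hs a' a + hs a b = hs a' b := hs_add haa hab.le
      have h1' : hs a' b + hs b b' = hs a' b' := hs_add (by omega) hblt.le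
      have h2 : ((hs a' a : ℚ) : ℝ) + ((hs a b : ℚ) : ℝ) + ((hs b b' : ℚ) : ℝ) = ((hs a' b' : ℚ) : ℝ) := by
        rw [← h1', ← h1]; push_cast; ring
      have h3 := hlow b b' hblt
      have h4 : (0 : ℝ) ≤ ((hs a' a : ℚ) : ℝ) := by exact_mod_cast hs_nonneg a' a
      have h5 : 1 / (4 * (b : ℝ)) ≤ 1 / b' := by
        apply one_div_le_one_div_of_le (by linarith)
        linarith
      linarith

end Pool.Agent.P30.UnitInterval
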